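import Pool.Agent.Q93.Sharp.L1

/-!
Pointwise sharp closed convex sets are polyhedral in finite dimension, but not in `ℓ²`.
-/

set_option autoImplicit false

namespace Pool.Agent.Results.MP_c48ca6_an.PointwiseReading

open Q93.Sharp

universe u

/-- **Pointwise sharpness (`α > 0` may depend on the unit vector).** In a finite-dimensional real
Hilbert space every nonempty closed convex set which is sharp with respect to every unit vector is
polyhedral. In `ℓ²` there is a bounded, closed, convex set with dense linear span which is sharp
with respect to every unit vector and which is not polyhedral (the unit ball of `ℓ¹`). -/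
theorem result :
    (∀ (H : Type u) [NormedAddCommGroup H] [InnerProductSpace ℝ H] [FiniteDimensional ℝ H]
      (A : Set H), A.Nonempty → IsClosed A → Convex ℝ A → PointwiseSharp A → IsPolyhedral A) ∧
    ∃ A : Set (lp (fun _ : ℕ => ℝ) 2), SharpNotPolyhedral A :=
  ⟨fun _ _ _ _ _ hne hcl hconv h => polyhedral_of_pointwiseSharp hne hcl hconv h,
    B1, ⟨0, zero_mem_B1⟩, bounded_B1, isClosed_B1, convex_B1, dense_span_B1, pointwiseSharp_B1,
    fun hP => not_bounded_of_polyhedral E_infinite ⟨0, zero_mem_B1⟩ hP bounded_B1⟩

end Pool.Agent.Results.MP_c48ca6_an.PointwiseReading
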