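import Pool.Agent.Q93.Sharp.L1

/-!
Uniformly sharp closed convex sets: the whole space and the singletons.
-/

set_option autoImplicit false

namespace Pool.Agent.Results.MP_c48ca6_an.UniformReading

open Q93.Sharp

/-- **Uniform sharpness (one `α` for all unit vectors).** In a real Hilbert space of dimension at
least two the uniformly sharp nonempty closed convex sets are exactly the whole space and the
singletons; if the space is infinite-dimensional, the singletons are not polyhedral. -/
theorem result (H : Type*) [NormedAddCommGroup H] [InnerProductSpace ℝ H] [CompleteSpace H]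
    (hdim : 1 < Module.rank ℝ H) :
    (∀ A : Set H, A.Nonempty → IsClosed A → Convex ℝ A →
      (UniformlySharp A ↔ A = Set.univ ∨ ∃ x, A = {x})) ∧
    (¬ FiniteDimensional ℝ H → ∀ x : H, ¬ IsPolyhedral ({x} : Set H)) := by
  refine ⟨fun A hne hcl hconv => ⟨eq_univ_or_singleton hdim hne hcl hconv, ?_⟩, ?_⟩
  · rintro (rfl | ⟨x, rfl⟩)
    · exact uniformlySharp_univ
    · exact uniformlySharp_singleton x
  · intro hinf x hP
    exact not_bounded_of_polyhedral hinf (Set.singleton_nonempty x) hP
      Bornology.isBounded_singleton

end Pool.Agent.Results.MP_c48ca6_an.UniformReading
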